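import Pool.Agent.Q220.DualBound.Final

/-!
# A polynomial dual bound for a monotone polynomial inequality

The definitions (`maxFeasible`, `minNonDominated`, `PolyIneq`, `PolyIneq.f`, `PolyIneq.c`,
`sumProd`) are in `Pool.Agent.Q220.DualBound.Defs`.
-/

set_option autoImplicit false

open Q220.DualBound

namespace Pool.Agent.Results.MP_51bff2_lc.PolynomialDualBound

/-- **Theorem.** (1) For every monotone polynomial inequality `f x ≤ t` with `N` monomials in `n`
variables, on its box, and for every subfamily `Y` of the family of the maximal feasible vectors,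
the number of the minimal infeasible vectors that are minimal non-dominated elements of `Y` is at
most `1 + 6 (N + 1) n ^ 3 |Y| ^ 3 (|Y| + 1) ^ 2`, whatever the degrees and the coefficients are.
(2) The same is true, with an additional factor `r`, for every system of `r` inequalities
`f s x ≤ t s` where each `f s` is a sum of `N` products of non-negative non-decreasing functions of
one variable, and for every integer box. -/
theorem result :
    (∀ (n : ℕ) (P : PolyIneq n) (Y : Finset (Fin n → ℕ)),
      (Y : Set (Fin n → ℕ)) ⊆ maxFeasible P.c (fun x => P.f x ≤ P.t) →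
      (minNonDominated P.c Y ∩
        minNonDominated P.c (maxFeasible P.c fun x => P.f x ≤ P.t)).encard ≤
        ((1 + 6 * (P.N + 1) * n ^ 3 * Y.card ^ 3 * (Y.card + 1) ^ 2 : ℕ) : ℕ∞)) ∧
    (∀ (n r N : ℕ) (a : Fin r → Fin N → ℝ) (u : Fin r → Fin N → Fin n → ℕ → ℝ) (t : Fin r → ℝ)
      (c : Fin n → ℕ) (Y : Finset (Fin n → ℕ)),
      (∀ s i, 0 ≤ a s i) → (∀ s i j x, 0 ≤ u s i j x) → (∀ s i j, Monotone (u s i j)) →
      (Y : Set (Fin n → ℕ)) ⊆ maxFeasible c (fun x => ∀ s, sumProd (a s) (u s) x ≤ t s) →
      (minNonDominated c Y ∩ minNonDominated c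
        (maxFeasible c fun x => ∀ s, sumProd (a s) (u s) x ≤ t s)).encard ≤
        ((r * (1 + 6 * (N + 1) * n ^ 3 * Y.card ^ 3 * (Y.card + 1) ^ 2) : ℕ) : ℕ∞)) :=
  ⟨fun _ P Y hY => poly_bound P Y hY,
    fun _ _ _ a u t c Y ha hu hm hY => system_bound a ha u hu hm t c Y hY⟩

end Pool.Agent.Results.MP_51bff2_lc.PolynomialDualBound
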